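import Pool.Agent.X150.Pon2

/-!
Q1: for every pair of ellipses, one strictly inside the other, there is a point whose power with
respect to the circumcircle is the same for all Poncelet triangles of the pair.
-/

namespace Pool.Agent.Results.MP_d21a88_gt.Circumcircle

open Pool.Agent.X150.Pon

/-- Let `Ec` be an ellipse strictly inside the ellipse `E`. There are a point `P` and a number `κ`
such that `P` has power `κ` with respect to the circumcircle of every triangle inscribed in `E` with
sides tangent to `Ec`. -/
theorem result (E Ec : Ellipse) (hin : StrictlyInside Ec E) :
    ∃ (P : Pl) (κ : ℝ), ∀ A B C : Pl, IsPonceletTriangle E Ec A B C →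
      ∀ (O : Pl) (r : ℝ), CircleThrough O r A B C → power P O r = κ :=
  exists_power_point E Ec hin

end Pool.Agent.Results.MP_d21a88_gt.Circumcircle
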