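import Pool.Agent.X150.PonDefs

/-!
Q2: an explicit non-concentric, non-axis-aligned pair of ellipses with Poncelet triangles for which
no point has constant power with respect to the Euler circle.
-/

namespace Pool.Agent.Results.MP_d21a88_gt.EulerCircle

open Pool.Agent.X150.Pon

/-- The outer ellipse. -/
noncomputable def E0 : Ellipse where
  cx := 3 / 218
  cy := 119 / 218
  p := 3379 / 1300
  q := -1853 / 3900
  r := 436 / 975
  hp := by norm_num
  hd := by norm_num

/-- The inner ellipse. -/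
noncomputable def C0 : Ellipse where
  cx := -1 / 21
  cy := 1 / 168
  p := 2689 / 550
  q := 46 / 275
  r := 2888 / 275
  hp := by norm_num
  hd := by norm_num

theorem lineMap_coord (A B : Pl) (t : ℝ) (i : Fin 2) :
    (AffineMap.lineMap A B t : Pl) i = A i + t * (B i - A i) := by
  rw [AffineMap.lineMap_apply]
  simp only [vsub_eq_sub, vadd_eq_add, PiLp.add_apply, PiLp.smul_apply, PiLp.sub_apply,
    smul_eq_mul]
  ring

/-- A criterion for tangency. -/
theorem tangent_of (ε : Ellipse) (A B : Pl) (a t0 : ℝ) (ha : 0 < a) (hne : A ≠ B)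
    (h : ∀ t : ℝ, ε.form (AffineMap.lineMap A B t) = 1 + a * (t - t0) ^ 2) :
    IsTangentLine ε A B := by
  refine ⟨hne, AffineMap.lineMap A B t0, ⟨?_, AffineMap.lineMap_mem_affineSpan_pair t0 A B⟩, ?_⟩
  · change ε.form _ = 1
    rw [h]; ring
  · rintro X ⟨hX1, hX2⟩
    obtain ⟨t, rfl⟩ := mem_affineSpan_pair_iff_exists_lineMap_eq.mp hX2
    have h1 : ε.form (AffineMap.lineMap A B t) = 1 := hX1
    rw [h] at h1
    have h2 : (t - t0) ^ 2 = 0 := by
      have : a * (t - t0) ^ 2 = 0 := by linarith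
      exact (mul_eq_zero.mp this).resolve_left ha.ne'
    have h3 : t = t0 := by
      have := pow_eq_zero_iff (n := 2) (by norm_num) |>.mp h2
      linarith
    rw [h3]

theorem ne_of_coord {a b c d : ℝ} (h : a ≠ c ∨ b ≠ d) : (!₂[a, b] : Pl) ≠ !₂[c, d] := by
  intro he
  have h0 := congrArg (fun X : Pl => X 0) he
  have h1 := congrArg (fun X : Pl => X 1) he
  simp at h0 h1
  rcases h with h | h
  · exact h h0
  · exact h h1

theorem pon1 : IsPonceletTriangle E0 C0 !₂[1 / 2, 0] !₂[-1 / 2, -1] !₂[-1 / 2, 1] := by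
  constructor
  · simp [Ellipse.curve, Ellipse.form, E0]; norm_num
  · simp [Ellipse.curve, Ellipse.form, E0]; norm_num
  · simp [Ellipse.curve, Ellipse.form, E0]; norm_num
  · apply tangent_of _ _ _ (8649 / 550) (16 / 93) (by norm_num)
      (ne_of_coord (Or.inl (by norm_num)))
    intro t
    simp [Ellipse.form, C0, lineMap_coord]; ring
  · apply tangent_of _ _ _ (11552 / 275) (77 / 152) (by norm_num)
      (ne_of_coord (Or.inr (by norm_num)))
    intro t
    simp [Ellipse.form, C0, lineMap_coord]; ring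
  · apply tangent_of _ _ _ (8281 / 550) (75 / 91) (by norm_num)
      (ne_of_coord (Or.inl (by norm_num)))
    intro t
    simp [Ellipse.form, C0, lineMap_coord]; ring

theorem pon2 : IsPonceletTriangle E0 C0 !₂[2 / 3, 3 / 4] !₂[-2 / 3, 1 / 12] !₂[1 / 6, -3 / 4] := by
  constructor
  · simp [Ellipse.curve, Ellipse.form, E0]; norm_num
  · simp [Ellipse.curve, Ellipse.form, E0]; norm_num
  · simp [Ellipse.curve, Ellipse.form, E0]; norm_num
  · apply tangent_of _ _ _ (1352 / 99) (77 / 104) (by norm_num)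
      (ne_of_coord (Or.inl (by norm_num)))
    intro t
    simp [Ellipse.form, C0, lineMap_coord]; ring
  · apply tangent_of _ _ _ (8281 / 792) (27 / 91) (by norm_num)
      (ne_of_coord (Or.inl (by norm_num)))
    intro t
    simp [Ellipse.form, C0, lineMap_coord]; ring
  · apply tangent_of _ _ _ (2209 / 88) (64 / 141) (by norm_num)
      (ne_of_coord (Or.inl (by norm_num)))
    intro t
    simp [Ellipse.form, C0, lineMap_coord]; ring

theorem mid_coord (a b c d : ℝ) :
    midpoint ℝ (!₂[a, b] : Pl) !₂[c, d] = !₂[(a + c) / 2, (b + d) / 2] := by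
  ext i
  rw [midpoint_eq_smul_add]
  fin_cases i <;> simp <;> ring

theorem dist_zero_coord (a b s : ℝ) (hs : 0 ≤ s) (h : a ^ 2 + b ^ 2 = s ^ 2) :
    dist (!₂[a, b] : Pl) 0 = s := by
  rw [EuclideanSpace.dist_eq]
  rw [Real.sqrt_eq_iff_mul_self_eq (by positivity) hs]
  simp [sq_abs]
  nlinarith

theorem euler1 : IsEulerCircle 0 (1 / 2) (!₂[1 / 2, 0] : Pl) !₂[-1 / 2, -1] !₂[-1 / 2, 1] := by
  refine ⟨by norm_num, ?_, ?_, ?_⟩
  · rw [mid_coord]; exact dist_zero_coord _ _ _ (by norm_num) (by norm_num)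
  · rw [mid_coord]; exact dist_zero_coord _ _ _ (by norm_num) (by norm_num)
  · rw [mid_coord]; exact dist_zero_coord _ _ _ (by norm_num) (by norm_num)

theorem euler2 :
    IsEulerCircle 0 (5 / 12) (!₂[2 / 3, 3 / 4] : Pl) !₂[-2 / 3, 1 / 12] !₂[1 / 6, -3 / 4] := by
  refine ⟨by norm_num, ?_, ?_, ?_⟩
  · rw [mid_coord]; exact dist_zero_coord _ _ _ (by norm_num) (by norm_num)
  · rw [mid_coord]; exact dist_zero_coord _ _ _ (by norm_num) (by norm_num)
  · rw [mid_coord]; exact dist_zero_coord _ _ _ (by norm_num) (by norm_num)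

theorem inside : StrictlyInside C0 E0 := by
  intro X hX
  have h1 : C0.form X = 1 := hX
  simp only [Ellipse.form, C0] at h1
  simp only [Ellipse.form, E0]
  set x := X 0
  set y := X 1
  nlinarith [sq_nonneg (x - 181168755 / 1784281706 +
    127031 / 176562 * (y + 67068295 / 1784281706)), sq_nonneg (y + 67068295 / 1784281706)]

theorem nonconc : NonConcentric E0 C0 := by
  rintro ⟨h, -⟩
  simp only [E0, C0] at h
  norm_num at h

theorem nonaligned : NonAxisAligned E0 C0 := by
  rintro ⟨u, v, ⟨h0, k, h1, h2⟩, ⟨-, l, h3, h4⟩⟩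
  simp only [E0, C0] at h1 h2 h3 h4
  apply h0
  -- eliminate the eigenvalues
  have e1 : (3379 / 1300 * u + -1853 / 3900 * v) * v = (-1853 / 3900 * u + 436 / 975 * v) * u := by
    rw [h1, h2]; ring
  have e2 : (2689 / 550 * u + 46 / 275 * v) * v = (46 / 275 * u + 2888 / 275 * v) * u := by
    rw [h3, h4]; ring
  have e3 : u * v = 0 := by linarith
  have e4 : u ^ 2 = v ^ 2 := by linarith
  rcases mul_eq_zero.mp e3 with h | h
  · refine ⟨h, ?_⟩
    rw [h] at e4
    exact pow_eq_zero_iff (n := 2) (by norm_num) |>.mp (by linarith)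
  · refine ⟨?_, h⟩
    rw [h] at e4
    exact pow_eq_zero_iff (n := 2) (by norm_num) |>.mp (by linarith)

/-- There is a pair of ellipses `E`, `Ec` with `Ec` strictly inside `E`, non-concentric,
non-axis-aligned, and admitting a Poncelet triangle, such that no point `P` has the same power with
respect to the Euler circles of all triangles inscribed in `E` with sides tangent to `Ec`. -/
theorem result : ∃ E Ec : Ellipse, StrictlyInside Ec E ∧ NonConcentric E Ec ∧
    NonAxisAligned E Ec ∧ (∃ A B C : Pl, IsPonceletTriangle E Ec A B C) ∧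
    ∀ P : Pl, ¬ ∃ κ : ℝ, ∀ A B C : Pl, IsPonceletTriangle E Ec A B C →
      ∀ (O : Pl) (r : ℝ), IsEulerCircle O r A B C → power P O r = κ := by
  refine ⟨E0, C0, inside, nonconc, nonaligned, ⟨_, _, _, pon1⟩, ?_⟩
  rintro P ⟨κ, hκ⟩
  have h1 := hκ _ _ _ pon1 _ _ euler1
  have h2 := hκ _ _ _ pon2 _ _ euler2
  simp only [power] at h1 h2
  linarith

end Pool.Agent.Results.MP_d21a88_gt.EulerCircle
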